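import Mathlib
import Pool.Agent.H97R2.BP.Defs
import Pool.Agent.H97R2.BP.Defs2

open scoped ComplexOrder InnerProductSpace ComplexConjugate TensorProduct
open Finset H759R2.Kad H710R2.DP

noncomputable section

namespace H97R2.BP

namespace ZZ541

variable {H : Type} [NormedAddCommGroup H] [InnerProductSpace ℂ H] [CompleteSpace H]

/-- Positive `M`-central functional supported by `z`. -/
structure PT (M : VonNeumannAlgebra H) (Ψ : (H →L[ℂ] H) →ₗ[ℂ] ℂ) (z : H →L[ℂ] H) : Prop where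
  pos : ∀ x, 0 ≤ Ψ (star x * x)
  supp : ∀ x, Ψ (z * x * z) = Ψ x
  comm : ∀ a ∈ M, ∀ x, Ψ (a * x) = Ψ (x * a)

/-- The vector functional. -/
def mu {k : ℕ} (η : Fin k → H) (z : H →L[ℂ] H) : ℂ := ∑ j, ⟪η j, z (η j)⟫_ℂ

theorem mu_add {k : ℕ} (η : Fin k → H) (y z : H →L[ℂ] H) : mu η (y + z) = mu η y + mu η z := by
  simp only [mu, ContinuousLinearMap.add_apply, inner_add_right, Finset.sum_add_distrib]

theorem mu_smul {k : ℕ} (η : Fin k → H) (c : ℂ) (z : H →L[ℂ] H) : mu η (c • z) = c * mu η z := by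
  simp only [mu, ContinuousLinearMap.smul_apply, inner_smul_right, Finset.mul_sum]

theorem mu_zero {k : ℕ} (η : Fin k → H) : mu η (0 : H →L[ℂ] H) = 0 := by
  simp [mu]

theorem mu_sum {k n : ℕ} (η : Fin k → H) (c : Fin n → ℂ) (f : Fin n → (H →L[ℂ] H)) :
    mu η (∑ i, c i • f i) = ∑ i, c i * mu η (f i) := by
  have h : ∀ s : Finset (Fin n), mu η (∑ i ∈ s, c i • f i) = ∑ i ∈ s, c i * mu η (f i) := by
    intro s
    induction s using Finset.induction_on with
    | empty => simp [mu_zero]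
    | insert a s ha ih => rw [Finset.sum_insert ha, Finset.sum_insert ha, mu_add, mu_smul, ih]
  exact h _

theorem mu_le {k : ℕ} (η : Fin k → H) (hη : ∑ j, ‖η j‖ ^ 2 = 1) (z : H →L[ℂ] H) :
    ‖mu η z‖ ≤ ‖z‖ := by
  unfold mu
  calc ‖∑ j, ⟪η j, z (η j)⟫_ℂ‖ ≤ ∑ j, ‖⟪η j, z (η j)⟫_ℂ‖ := norm_sum_le _ _
    _ ≤ ∑ j, ‖z‖ * ‖η j‖ ^ 2 := by
        refine Finset.sum_le_sum fun j _ => ?_
        calc ‖⟪η j, z (η j)⟫_ℂ‖ ≤ ‖η j‖ * ‖z (η j)‖ := norm_inner_le_norm _ _
          _ ≤ ‖η j‖ * (‖z‖ * ‖η j‖) :=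
              mul_le_mul_of_nonneg_left (z.le_opNorm _) (norm_nonneg _)
          _ = ‖z‖ * ‖η j‖ ^ 2 := by ring
    _ = ‖z‖ := by rw [← Finset.mul_sum, hη, mul_one]

theorem mu_pr {k : ℕ} (η : Fin k → H) {z : H →L[ℂ] H} (hz : IsPr z) :
    mu η z = ((∑ j, ‖z (η j)‖ ^ 2 : ℝ) : ℂ) := by
  unfold mu
  push_cast
  refine Finset.sum_congr rfl fun j _ => ?_
  have h1 : z (z (η j)) = z (η j) := by
    have := congrArg (fun T : H →L[ℂ] H => T (η j)) hz.2
    simpa using this
  calc ⟪η j, z (η j)⟫_ℂ = ⟪η j, z (z (η j))⟫_ℂ := by rw [h1]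
    _ = ⟪(ContinuousLinearMap.adjoint z) (η j), z (η j)⟫_ℂ := by
        rw [ContinuousLinearMap.adjoint_inner_left]
    _ = ⟪z (η j), z (η j)⟫_ℂ := by
        have h2 : ContinuousLinearMap.adjoint z = z := hz.1
        rw [h2]
    _ = (‖z (η j)‖ : ℂ) ^ 2 := by rw [inner_self_eq_norm_sq_to_K]; rfl

theorem mu_nonneg {k : ℕ} (η : Fin k → H) {z : H →L[ℂ] H} (hz : IsPr z) : 0 ≤ mu η z := by
  rw [mu_pr η hz]
  exact Complex.zero_le_real.2 (Finset.sum_nonneg fun j _ => sq_nonneg _)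

theorem cp_mul {M : VonNeumannAlgebra H} {y z : H →L[ℂ] H} (hy : IsCP M y) (hz : IsCP M z) :
    IsCP M (y * z) := by
  have hyz : y * z = z * y := hy.2.2 z hz.2.1
  refine ⟨⟨?_, ?_⟩, mul_mem hy.2.1 hz.2.1, ?_⟩
  · rw [star_mul, hy.1.1, hz.1.1, hyz]
  · calc y * z * (y * z) = y * (z * y) * z := by simp only [mul_assoc]
      _ = y * (y * z) * z := by rw [hyz]
      _ = (y * y) * (z * z) := by simp only [mul_assoc]
      _ = y * z := by rw [hy.1.2, hz.1.2]
  · intro a ha
    calc y * z * a = y * (z * a) := mul_assoc _ _ _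
      _ = y * (a * z) := by rw [hz.2.2 a ha]
      _ = (y * a) * z := (mul_assoc _ _ _).symm
      _ = (a * y) * z := by rw [hy.2.2 a ha]
      _ = a * (y * z) := mul_assoc _ _ _

theorem cp_compl {M : VonNeumannAlgebra H} {z : H →L[ℂ] H} (hz : IsCP M z) : IsCP M (1 - z) := by
  refine ⟨⟨?_, ?_⟩, sub_mem (one_mem M) hz.2.1, ?_⟩
  · rw [star_sub, star_one, hz.1.1]
  · have h := hz.1.2
    calc (1 - z) * (1 - z) = 1 - z - z + z * z := by noncomm_ring
      _ = 1 - z := by rw [h]; abel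
  · intro a ha
    rw [sub_mul, mul_sub, one_mul, mul_one, hz.2.2 a ha]

/-- Functionals with prescribed values at finitely many central projections. -/
theorem fin_step {M : VonNeumannAlgebra H} {p : H →L[ℂ] H}
    (hyp : ∀ z, IsCP M z → p * z = z → z ≠ 0 → ∃ Ψ : (H →L[ℂ] H) →ₗ[ℂ] ℂ, HypTr M Ψ z)
    {k : ℕ} (η : Fin k → H) (F : Finset (H →L[ℂ] H)) : (∀ f ∈ F, IsCP M f) →
    ∀ z, IsCP M z → p * z = z → ∃ Ψ : (H →L[ℂ] H) →ₗ[ℂ] ℂ, PT M Ψ z ∧ Ψ z = mu η z ∧
      ∀ f ∈ F, Ψ f = mu η (z * f) := by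
  classical
  induction F using Finset.induction_on with
  | empty =>
    intro _ z hz hpz
    by_cases h0 : z = 0
    · refine ⟨0, ⟨fun x => le_rfl, fun x => rfl, fun a _ x => rfl⟩, ?_, fun f hf => ?_⟩
      · rw [h0, mu_zero]; rfl
      · exact absurd hf (Finset.notMem_empty f)
    · obtain ⟨Ψ, hΨ⟩ := hyp z hz hpz h0
      refine ⟨mu η z • Ψ, ⟨fun x => ?_, fun x => ?_, fun a ha x => ?_⟩, ?_, fun f hf => ?_⟩
      · rw [LinearMap.smul_apply, smul_eq_mul]
        exact mul_nonneg (mu_nonneg η hz.1) (hΨ.pos x)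
      · rw [LinearMap.smul_apply, LinearMap.smul_apply, hΨ.supp]
      · rw [LinearMap.smul_apply, LinearMap.smul_apply, hΨ.comm a ha]
      · rw [LinearMap.smul_apply, hΨ.one, smul_eq_mul, mul_one]
      · exact absurd hf (Finset.notMem_empty f)
  | insert f F hf ih =>
    intro hF z hz hpz
    have hfc : IsCP M f := hF f (Finset.mem_insert_self f F)
    have hF' : ∀ g ∈ F, IsCP M g := fun g hg => hF g (Finset.mem_insert_of_mem hg)
    have hz1 : IsCP M (z * f) := cp_mul hz hfc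
    have hz2 : IsCP M (z * (1 - f)) := cp_mul hz (cp_compl hfc)
    obtain ⟨Ψ1, h1, h1z, h1F⟩ := ih hF' (z * f) hz1 (by rw [← mul_assoc, hpz])
    obtain ⟨Ψ2, h2, h2z, h2F⟩ := ih hF' (z * (1 - f)) hz2 (by rw [← mul_assoc, hpz])
    have hzf : z * f = f * z := hz.2.2 f hfc.2.1
    have hzf2 : z * (1 - f) = (1 - f) * z := hz.2.2 _ (cp_compl hfc).2.1
    have zz : z * z = z := hz.1.2
    have ff : f * f = f := hfc.1.2
    have e1 : z * f * z = z * f := by
      calc z * f * z = z * (f * z) := mul_assoc _ _ _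
        _ = z * (z * f) := by rw [hzf]
        _ = z * f := by rw [← mul_assoc, zz]
    have e1' : z * (z * f) = z * f := by rw [← mul_assoc, zz]
    have e2 : z * (1 - f) * z = z * (1 - f) := by
      calc z * (1 - f) * z = z * ((1 - f) * z) := mul_assoc _ _ _
        _ = z * (z * (1 - f)) := by rw [hzf2]
        _ = z * (1 - f) := by rw [← mul_assoc, zz]
    have e2' : z * (z * (1 - f)) = z * (1 - f) := by rw [← mul_assoc, zz]
    have gsupp : ∀ (w : H →L[ℂ] H) (Ψ : (H →L[ℂ] H) →ₗ[ℂ] ℂ), PT M Ψ w → w * z = w → z * w = w →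
        ∀ x, Ψ (z * x * z) = Ψ x := by
      intro w Ψ hw hwz hzw x
      rw [← hw.supp (z * x * z), ← hw.supp x]
      congr 1
      calc w * (z * x * z) * w = (w * z) * x * (z * w) := by simp only [mul_assoc]
        _ = w * x * w := by rw [hwz, hzw]
    refine ⟨Ψ1 + Ψ2, ⟨fun x => ?_, fun x => ?_, fun a ha x => ?_⟩, ?_, ?_⟩
    · rw [LinearMap.add_apply]
      exact add_nonneg (h1.pos x) (h2.pos x)
    · rw [LinearMap.add_apply, LinearMap.add_apply, gsupp _ Ψ1 h1 e1 e1', gsupp _ Ψ2 h2 e2 e2']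
    · rw [LinearMap.add_apply, LinearMap.add_apply, h1.comm a ha, h2.comm a ha]
    · rw [LinearMap.add_apply]
      have a1 : Ψ1 z = mu η (z * f) := by
        rw [← h1.supp z, e1, hz1.1.2, h1z]
      have a2 : Ψ2 z = mu η (z * (1 - f)) := by
        rw [← h2.supp z, e2, hz2.1.2, h2z]
      rw [a1, a2, ← mu_add]
      congr 1
      rw [mul_sub, mul_one]
      abel
    · intro g hg
      rw [LinearMap.add_apply]
      rcases Finset.mem_insert.1 hg with rfl | hg
      · have a1 : Ψ1 g = mu η (z * g) := by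
          rw [← h1.supp g]
          have : z * g * g * (z * g) = z * g := by
            calc z * g * g * (z * g) = z * (g * g) * (z * g) := by simp only [mul_assoc]
              _ = z * g * (z * g) := by rw [ff]
              _ = z * g := hz1.1.2
          rw [this, h1z]
        have a2 : Ψ2 g = 0 := by
          rw [← h2.supp g]
          have : z * (1 - g) * g * (z * (1 - g)) = 0 := by
            have h3 : (1 - g) * g = 0 := by rw [sub_mul, one_mul, ff, sub_self]
            calc z * (1 - g) * g * (z * (1 - g)) = z * ((1 - g) * g) * (z * (1 - g)) := by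
                  simp only [mul_assoc]
              _ = 0 := by rw [h3, mul_zero, zero_mul]
          rw [this, map_zero]
        rw [a1, a2, add_zero]
      · rw [h1F g hg, h2F g hg, ← mu_add]
        congr 1
        rw [mul_sub, mul_one, sub_mul]
        abel

/-- A positive functional with value one at `1` is contractive. -/
theorem bound (Ψ : (H →L[ℂ] H) →ₗ[ℂ] ℂ) (hpos : ∀ x, 0 ≤ Ψ (star x * x)) (h1 : Ψ 1 = 1)
    (x : H →L[ℂ] H) : ‖Ψ x‖ ≤ ‖x‖ := by
  have e : ∀ c : ℂ, Ψ (star (x + c • 1) * (x + c • 1)) =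
      Ψ (star x * x) + c * Ψ (star x) + conj c * Ψ x + conj c * c := by
    intro c
    have : star (x + c • 1) * (x + c • 1) =
        star x * x + c • star x + (conj c) • x + (conj c * c) • (1 : H →L[ℂ] H) := by
      rw [star_add, star_smul, star_one, add_mul, mul_add, mul_add, mul_smul_comm, mul_one,
        smul_mul_assoc, one_mul, smul_mul_assoc, one_mul, smul_smul]
      simp only [RCLike.star_def]
      abel
    rw [this, map_add, map_add, map_add, map_smul, map_smul, map_smul, h1]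
    simp only [smul_eq_mul, mul_one]
  have real : ∀ c : ℂ, (Ψ (star (x + c • 1) * (x + c • 1))).im = 0 := fun c =>
    ((Complex.nonneg_iff.1 (hpos _)).2).symm
  have r0 : (Ψ (star x * x)).im = 0 := ((Complex.nonneg_iff.1 (hpos x)).2).symm
  have ha := real 1
  have hb := real Complex.I
  rw [e] at ha hb
  simp only [map_one, one_mul, Complex.conj_I, Complex.add_im, Complex.mul_im, Complex.I_re,
    Complex.I_im, Complex.neg_re, Complex.neg_im, Complex.one_im, zero_mul, neg_zero, mul_zero,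
    add_zero, zero_add, neg_mul, mul_neg, mul_one] at ha hb
  have hstar : Ψ (star x) = conj (Ψ x) := by
    apply Complex.ext
    · rw [Complex.conj_re]; linarith
    · rw [Complex.conj_im]; linarith
  have h3 := hpos (x + (-Ψ x) • 1)
  rw [e, hstar] at h3
  have h4 : 0 ≤ (Ψ (star x * x)).re - ‖Ψ x‖ ^ 2 := by
    have h5 := (Complex.nonneg_iff.1 h3).1
    have h6 : ‖Ψ x‖ ^ 2 = (Ψ x).re ^ 2 + (Ψ x).im ^ 2 := by
      rw [← Complex.normSq_eq_norm_sq, Complex.normSq_apply]; ring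
    rw [h6]
    simp only [map_neg, Complex.add_re, Complex.mul_re, Complex.neg_re, Complex.neg_im,
      Complex.conj_re, Complex.conj_im] at h5
    nlinarith
  have h7 : (Ψ (star x * x)).re ≤ ‖x‖ ^ 2 := by
    have h8 : star x * x ≤ algebraMap ℝ (H →L[ℂ] H) (‖x‖ ^ 2) :=
      CStarAlgebra.star_mul_le_algebraMap_norm_sq
    obtain ⟨y, hy⟩ := CStarAlgebra.nonneg_iff_eq_star_mul_self.1 (sub_nonneg.2 h8)
    have h9 := hpos y
    rw [← hy, map_sub] at h9
    have h10 : (algebraMap ℝ (H →L[ℂ] H) (‖x‖ ^ 2)) = ((‖x‖ ^ 2 : ℝ) : ℂ) • (1 : H →L[ℂ] H) := by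
      rw [Algebra.algebraMap_eq_smul_one]
      rfl
    rw [h10, map_smul, h1, smul_eq_mul, mul_one] at h9
    have h11 := (Complex.nonneg_iff.1 h9).1
    rw [Complex.sub_re, Complex.ofReal_re] at h11
    linarith
  have h12 : ‖Ψ x‖ ^ 2 ≤ ‖x‖ ^ 2 := by linarith
  exact abs_le_of_sq_le_sq' h12 (norm_nonneg _) |>.2

/-- Pointwise limits of bounded families of functionals along an ultrafilter. -/
theorem ulimit {I : Type} (U : Ultrafilter I) (Ψ : I → ((H →L[ℂ] H) →ₗ[ℂ] ℂ))
    (hb : ∀ i x, ‖Ψ i x‖ ≤ ‖x‖) : ∃ L : (H →L[ℂ] H) →ₗ[ℂ] ℂ,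
      ∀ x, Filter.Tendsto (fun i => Ψ i x) U (nhds (L x)) := by
  have h : ∀ x, ∃ l : ℂ, Filter.Tendsto (fun i => Ψ i x) U (nhds l) := by
    intro x
    have h1 : (↑(U.map (fun i => Ψ i x)) : Filter ℂ) ≤
        Filter.principal (Metric.closedBall (0 : ℂ) ‖x‖) := by
      rw [Filter.le_principal_iff, Ultrafilter.mem_coe, Ultrafilter.mem_map]
      refine Filter.mem_of_superset Filter.univ_mem fun i _ => ?_
      rw [Set.mem_preimage, mem_closedBall_zero_iff]
      exact hb i x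
    obtain ⟨l, _, hl⟩ := (isCompact_closedBall (0 : ℂ) ‖x‖).ultrafilter_le_nhds _ h1
    exact ⟨l, hl⟩
  choose L hL using h
  refine ⟨{ toFun := L, map_add' := ?_, map_smul' := ?_ }, hL⟩
  · intro x y
    refine tendsto_nhds_unique (hL (x + y)) ?_
    have := (hL x).add (hL y)
    refine this.congr fun i => ?_
    rw [map_add]
  · intro c x
    refine tendsto_nhds_unique (hL (c • x)) ?_
    have := (hL x).const_mul c
    refine this.congr fun i => ?_
    rw [map_smul, smul_eq_mul]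

end ZZ541

open ZZ541 in
theorem bp_glo (h : Z_span) : Z_glo := by
  classical
  intro H _ _ _ M p hp hyp k η hpη hη
  have hfin := fun (F : Finset {f : H →L[ℂ] H // IsCP M f}) =>
    fin_step hyp η (F.image Subtype.val) (fun f hf => by
      obtain ⟨g, _, rfl⟩ := Finset.mem_image.1 hf
      exact g.2) p hp hp.1.2
  choose Ψ hPT hΨp hΨF using hfin
  have hmup : mu η p = 1 := by
    rw [mu_pr η hp.1]
    have : ∑ j, ‖p (η j)‖ ^ 2 = 1 := by
      rw [← hη]
      exact Finset.sum_congr rfl fun j _ => by rw [hpη]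
    rw [this]
    norm_num
  have hone : ∀ F, Ψ F 1 = 1 := by
    intro F
    rw [← (hPT F).supp 1, mul_one, hp.1.2, hΨp, hmup]
  have hb : ∀ F x, ‖Ψ F x‖ ≤ ‖x‖ := fun F x => bound (Ψ F) (hPT F).pos (hone F) x
  have hadj : ContinuousLinearMap.adjoint p = p := hp.1.1
  have hmul : ∀ f : H →L[ℂ] H, mu η (p * f) = mu η f := by
    intro f
    unfold mu
    refine Finset.sum_congr rfl fun j _ => ?_
    calc ⟪η j, (p * f) (η j)⟫_ℂ = ⟪η j, p (f (η j))⟫_ℂ := rfl
      _ = ⟪(ContinuousLinearMap.adjoint p) (η j), f (η j)⟫_ℂ := by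
          rw [ContinuousLinearMap.adjoint_inner_left]
      _ = ⟪η j, f (η j)⟫_ℂ := by rw [hadj, hpη]
  have : Nonempty (Finset {f : H →L[ℂ] H // IsCP M f}) := ⟨∅⟩
  obtain ⟨L, hL⟩ := ulimit (Ultrafilter.of (Filter.atTop :
    Filter (Finset {f : H →L[ℂ] H // IsCP M f}))) Ψ hb
  have hU := Ultrafilter.of_le (Filter.atTop : Filter (Finset {f : H →L[ℂ] H // IsCP M f}))
  generalize (Ultrafilter.of (Filter.atTop :
    Filter (Finset {f : H →L[ℂ] H // IsCP M f}))) = U at hL hU
  have hLb : ∀ x, ‖L x‖ ≤ ‖x‖ := fun x =>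
    le_of_tendsto (hL x).norm (Filter.Eventually.of_forall fun i => hb i x)
  have hLf : ∀ f, IsCP M f → L f = mu η f := by
    intro f hf
    refine tendsto_nhds_unique (hL f) ?_
    refine Filter.Tendsto.congr' ?_ tendsto_const_nhds
    have h1 : ∀ᶠ F in (Filter.atTop : Filter (Finset {f : H →L[ℂ] H // IsCP M f})),
        mu η f = Ψ F f := by
      filter_upwards [Filter.eventually_ge_atTop ({⟨f, hf⟩} : Finset _)] with F hF
      rw [hΨF F f (Finset.mem_image.2 ⟨⟨f, hf⟩, hF (Finset.mem_singleton_self _), rfl⟩), hmul]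
    exact hU h1
  refine ⟨L, ⟨?_, ?_, ?_, ?_⟩, ?_⟩
  · intro x
    rw [Complex.nonneg_iff]
    constructor
    · exact ge_of_tendsto ((Complex.continuous_re.tendsto _).comp (hL (star x * x)))
        (Filter.Eventually.of_forall fun F => (Complex.nonneg_iff.1 ((hPT F).pos x)).1)
    · have h1 := (Complex.continuous_im.tendsto _).comp (hL (star x * x))
      refine tendsto_nhds_unique tendsto_const_nhds (h1.congr fun F => ?_)
      exact ((Complex.nonneg_iff.1 ((hPT F).pos x)).2).symm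
  · rw [hLf p hp, hmup]
  · intro x
    exact tendsto_nhds_unique ((hL (p * x * p)).congr fun F => (hPT F).supp x) (hL x)
  · intro a ha x
    exact tendsto_nhds_unique ((hL (a * x)).congr fun F => (hPT F).comm a ha x) (hL (x * a))
  · intro z hz
    have h1 : ∀ ε : ℝ, 0 < ε → ‖L z - mu η z‖ ≤ 2 * ε := by
      intro ε hε
      obtain ⟨n, c, f, hf, hle⟩ := h H M z hz ε hε
      have h2 : L (∑ i, c i • f i) = mu η (∑ i, c i • f i) := by
        rw [mu_sum, map_sum]
        exact Finset.sum_congr rfl fun i _ => by rw [map_smul, hLf _ (hf i), smul_eq_mul]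
      have h3 : L z - mu η z = L (z - ∑ i, c i • f i) + - mu η (z - ∑ i, c i • f i) := by
        have h4 : mu η z = mu η (z - ∑ i, c i • f i) + mu η (∑ i, c i • f i) := by
          rw [← mu_add, sub_add_cancel]
        rw [map_sub, h2, h4]
        ring
      rw [h3]
      calc _ ≤ ‖L (z - ∑ i, c i • f i)‖ + ‖-mu η (z - ∑ i, c i • f i)‖ := norm_add_le _ _
        _ ≤ ε + ε := by
            rw [norm_neg]
            exact add_le_add ((hLb _).trans hle) ((mu_le η hη _).trans hle)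
        _ = 2 * ε := by ring
    have h2 : ‖L z - mu η z‖ ≤ 0 := by
      by_contra hc
      push Not at hc
      have := h1 (‖L z - mu η z‖ / 4) (by positivity)
      linarith
    have h3 := norm_le_zero_iff.1 h2
    exact sub_eq_zero.1 h3

end H97R2.BP
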